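import Mathlib

/-!
# The counting argument for the sharp upper bound
-/

set_option autoImplicit false

namespace Pool.Agent.H357.HE

open MeasureTheory Set Filter Topology

/-- logarithmic kernel, smoothed at `0` -/
noncomputable def kr (R ρ s : ℝ) : ℝ := max 0 (Real.log (R / (s + ρ)))

/-- its integral over a vertical line -/
noncomputable def JJ (R ρ u : ℝ) : ℝ := ∫ s : ℝ, kr R ρ (Real.sqrt (u ^ 2 + s ^ 2))

theorem kr_nonneg (R ρ s : ℝ) : 0 ≤ kr R ρ s := le_max_left _ _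

theorem JJ_nonneg (R ρ u : ℝ) : 0 ≤ JJ R ρ u := integral_nonneg fun _ => kr_nonneg _ _ _

theorem kr_zero {R ρ s : ℝ} (hR : 0 < R) (hρ : 0 < ρ) (hs : R ≤ s) : kr R ρ s = 0 := by
  unfold kr
  refine max_eq_left (Real.log_nonpos ?_ ?_)
  · have : 0 < s := hR.trans_le hs
    positivity
  · rw [div_le_one (by linarith)]
    linarith

theorem JJ_zero {R ρ u : ℝ} (hR : 0 < R) (hρ : 0 < ρ) (hu : R ≤ |u|) : JJ R ρ u = 0 := by
  unfold JJ
  have h : ∀ s : ℝ, kr R ρ (Real.sqrt (u ^ 2 + s ^ 2)) = 0 := by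
    intro s
    refine kr_zero hR hρ (hu.trans ?_)
    refine Real.abs_le_sqrt ?_
    nlinarith [sq_nonneg s]
  simp only [h, integral_zero]

theorem kr_cont {R ρ : ℝ} (u : ℝ) (hR : 0 < R) (hρ : 0 < ρ) :
    Continuous fun s : ℝ => kr R ρ (Real.sqrt (u ^ 2 + s ^ 2)) := by
  unfold kr
  refine continuous_const.max (Continuous.log ?_ ?_)
  · refine continuous_const.div (by fun_prop) ?_
    intro s
    have := Real.sqrt_nonneg (u ^ 2 + s ^ 2)
    positivity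
  · intro s
    have := Real.sqrt_nonneg (u ^ 2 + s ^ 2)
    positivity

theorem kr_int {R ρ : ℝ} (u : ℝ) (hR : 0 < R) (hρ : 0 < ρ) :
    Integrable fun s : ℝ => kr R ρ (Real.sqrt (u ^ 2 + s ^ 2)) := by
  refine (kr_cont u hR hρ).integrable_of_hasCompactSupport ?_
  refine HasCompactSupport.intro (isCompact_Icc (a := -R) (b := R)) ?_
  intro s hs
  refine kr_zero hR hρ ?_
  have h1 : R ≤ |s| := by
    by_contra h
    rw [not_le, abs_lt] at h
    exact hs ⟨h.1.le, h.2.le⟩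
  refine h1.trans (Real.abs_le_sqrt ?_)
  nlinarith [sq_nonneg u]

theorem JJ_low {R ρ u : ℝ} (hR : 0 < R) (hρ : 0 < ρ) (hρR : ρ ≤ R) (hu : |u| ≤ R) :
    2 * R ≤ JJ (8 * R) ρ u := by
  have h1 : ∀ s ∈ Icc (-R) R, (1 : ℝ) ≤ kr (8 * R) ρ (Real.sqrt (u ^ 2 + s ^ 2)) := by
    intro s hs
    have hs' : |s| ≤ R := abs_le.2 ⟨hs.1, hs.2⟩
    have h2 : Real.sqrt (u ^ 2 + s ^ 2) ≤ 3 / 2 * R := by
      rw [Real.sqrt_le_left (by positivity)]
      have e1 : u ^ 2 ≤ R ^ 2 := sq_le_sq' (by linarith [(abs_le.1 hu).1]) (abs_le.1 hu).2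
      have e2 : s ^ 2 ≤ R ^ 2 := sq_le_sq' (by linarith [hs.1]) hs.2
      nlinarith [sq_nonneg R]
    have h3 := Real.sqrt_nonneg (u ^ 2 + s ^ 2)
    unfold kr
    refine le_trans ?_ (le_max_right _ _)
    rw [Real.le_log_iff_exp_le (by positivity), le_div_iff₀ (by positivity)]
    have h4 := Real.exp_one_lt_d9
    nlinarith [Real.exp_pos 1]
  calc 2 * R = ∫ _ in Icc (-R) R, (1 : ℝ) := by
        rw [setIntegral_const, Measure.real, Real.volume_Icc, ENNReal.toReal_ofReal (by linarith)]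
        simp
        ring
    _ ≤ ∫ s in Icc (-R) R, kr (8 * R) ρ (Real.sqrt (u ^ 2 + s ^ 2)) := by
        refine setIntegral_mono_on ?_ (kr_int u (by positivity) hρ).integrableOn
          measurableSet_Icc h1
        exact integrableOn_const (by simp)
    _ ≤ JJ (8 * R) ρ u :=
        setIntegral_le_integral (kr_int u (by positivity) hρ)
          (Eventually.of_forall fun s => kr_nonneg _ _ _)

/-- Scaling. -/
theorem JJ_scale (R ρ x0 D : ℝ) (hD : 0 < D) (z : ℂ) :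
    ∫ t : ℝ, kr R ρ (‖z - (((x0 * D : ℝ) : ℂ) + (t : ℂ) * Complex.I)‖ / D) =
      D * JJ R ρ (z.re / D - x0) := by
  have h1 : ∀ t : ℝ, ‖z - (((x0 * D : ℝ) : ℂ) + (t : ℂ) * Complex.I)‖ / D =
      Real.sqrt ((z.re / D - x0) ^ 2 + ((z.im - t) / D) ^ 2) := by
    intro t
    rw [Complex.norm_def, Complex.normSq_apply]
    have e : (z.re / D - x0) ^ 2 + ((z.im - t) / D) ^ 2 =
        ((z - (((x0 * D : ℝ) : ℂ) + (t : ℂ) * Complex.I)).re *
          (z - (((x0 * D : ℝ) : ℂ) + (t : ℂ) * Complex.I)).re +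
        (z - (((x0 * D : ℝ) : ℂ) + (t : ℂ) * Complex.I)).im *
          (z - (((x0 * D : ℝ) : ℂ) + (t : ℂ) * Complex.I)).im) / D ^ 2 := by
      simp
      field_simp
    rw [e, Real.sqrt_div' _ (by positivity), Real.sqrt_sq hD.le]
  simp only [h1]
  have h2 : ∫ t : ℝ, kr R ρ (Real.sqrt ((z.re / D - x0) ^ 2 + ((z.im - t) / D) ^ 2)) =
      ∫ t : ℝ, kr R ρ (Real.sqrt ((z.re / D - x0) ^ 2 + (t / D) ^ 2)) :=
    integral_sub_left_eq_self
      (fun t : ℝ => kr R ρ (Real.sqrt ((z.re / D - x0) ^ 2 + (t / D) ^ 2))) volume z.im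
  rw [h2, Measure.integral_comp_div
    (fun s : ℝ => kr R ρ (Real.sqrt ((z.re / D - x0) ^ 2 + s ^ 2))) D, abs_of_pos hD, smul_eq_mul]
  rfl

/-- The number of the grid points in an interval. -/
theorem grid_card (N : ℕ) (hN : 0 < N) (p q : ℝ) (hpq : p ≤ q) :
    (((Finset.range (N + 1)).filter fun i : ℕ => p ≤ 1 / (N : ℝ) * i ∧ 1 / (N : ℝ) * i ≤ q).card : ℝ) ≤
      (q - p) * N + 1 := by
  have hN' : (0 : ℝ) < N := by exact_mod_cast hN
  set I := (Finset.range (N + 1)).filter fun i : ℕ =>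
    p ≤ 1 / (N : ℝ) * i ∧ 1 / (N : ℝ) * i ≤ q with hI
  rcases I.eq_empty_or_nonempty with h | h
  · rw [h]
    simp
    have := mul_nonneg (sub_nonneg.2 hpq) hN'.le
    linarith
  · have h1 : I ⊆ Finset.Icc (I.min' h) (I.max' h) := by
      intro i hi
      exact Finset.mem_Icc.2 ⟨I.min'_le i hi, I.le_max' i hi⟩
    have h2 := Finset.card_le_card h1
    rw [Nat.card_Icc] at h2
    have h3 := (Finset.mem_filter.1 (I.min'_mem h)).2.1
    have h4 := (Finset.mem_filter.1 (I.max'_mem h)).2.2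
    have h5 : I.min' h ≤ I.max' h := I.min'_le_max' h
    have h6 : (I.card : ℝ) ≤ (I.max' h : ℝ) + 1 - (I.min' h : ℝ) := by
      have : I.card + I.min' h ≤ I.max' h + 1 := by omega
      have h7 : ((I.card + I.min' h : ℕ) : ℝ) ≤ ((I.max' h + 1 : ℕ) : ℝ) := by exact_mod_cast this
      push_cast at h7
      linarith
    have h7 : p * N ≤ (I.min' h : ℝ) := by
      have := mul_le_mul_of_nonneg_right h3 hN'.le
      rwa [mul_comm (1 / (N : ℝ)), mul_assoc, one_div, inv_mul_cancel₀ hN'.ne', mul_one] at this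
    have h8 : (I.max' h : ℝ) ≤ q * N := by
      have := mul_le_mul_of_nonneg_right h4 hN'.le
      rwa [mul_comm (1 / (N : ℝ)), mul_assoc, one_div, inv_mul_cancel₀ hN'.ne', mul_one] at this
    linarith

/-- The zeros near an end point. -/
theorem count_end (m : ℂ → ℝ) (hm : ∀ z, 0 ≤ m z) (x : ℂ → ℝ) (S : Finset ℂ)
    (R ρ C1 W x0 : ℝ) (hR : 0 < R) (hR1 : R ≤ 1 / 8) (hρ : 0 < ρ) (hρR : ρ ≤ R ^ 3) (hC1 : 0 < C1)
    (hW : 0 ≤ W) (hS : ∀ z ∈ S, |x z - x0| ≤ R)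
    (hA : ∑ z ∈ S, m z * JJ (8 * R) ρ (x z - x0) ≤ ((8 * R) ^ 2 / 8 + C1 * ρ) * W) :
    ∑ z ∈ S, m z ≤ (4 + C1) * R * W := by
  have hρR1 : ρ ≤ R := by nlinarith [sq_nonneg R]
  have hρR2 : ρ ≤ R ^ 2 := by nlinarith [sq_nonneg R]
  have h1 : (∑ z ∈ S, m z) * (2 * R) ≤ ∑ z ∈ S, m z * JJ (8 * R) ρ (x z - x0) := by
    rw [Finset.sum_mul]
    refine Finset.sum_le_sum fun z hz => ?_
    exact mul_le_mul_of_nonneg_left (JJ_low hR hρ hρR1 (hS z hz)) (hm z)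
  have h2 : ((8 * R) ^ 2 / 8 + C1 * ρ) * W ≤ (4 + C1) * R * W * (2 * R) := by
    have h3 : (8 * R) ^ 2 / 8 + C1 * ρ ≤ (4 + C1) * R * (2 * R) := by nlinarith
    calc ((8 * R) ^ 2 / 8 + C1 * ρ) * W ≤ ((4 + C1) * R * (2 * R)) * W :=
          mul_le_mul_of_nonneg_right h3 hW
      _ = (4 + C1) * R * W * (2 * R) := by ring
  exact le_of_mul_le_mul_right (h1.trans (hA.trans h2)) (by positivity)

/-- The zeros in the middle. -/
theorem count_mid (m : ℂ → ℝ) (hm : ∀ z, 0 ≤ m z) (x : ℂ → ℝ) (S : Finset ℂ)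
    (R ρ C1 C2 W a b : ℝ) (N : ℕ) (hN : 0 < N) (hNR : 1 / (N : ℝ) ≤ R ^ 3)
    (hR : 0 < R) (hR1 : R ≤ 1 / 8) (hρ : 0 < ρ) (hρR : ρ ≤ R ^ 3) (hC1 : 0 < C1) (hC2 : 0 < C2)
    (hab : a ≤ b) (hW : 0 ≤ W)
    (hS : ∀ z ∈ S, R ≤ x z ∧ x z + R ≤ 1 ∧ a - R ≤ x z ∧ x z ≤ b + R)
    (hP : ∀ i < N + 1, ∑ z ∈ S, m z * JJ R ρ (x z - 1 / (N : ℝ) * i) ≤ (R ^ 2 / 8 + C1 * ρ) * W)
    (hK : ∀ y : ℝ, R ≤ y → y + R ≤ 1 →
      (Real.pi / 2 * R ^ 2 - C2 * (R * (ρ + 1 / (N : ℝ)))) / (1 / (N : ℝ)) ≤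
        ∑ i ∈ Finset.range (N + 1), JJ R ρ (y - 1 / (N : ℝ) * i)) :
    (∑ z ∈ S, m z) * (Real.pi / 2 - 2 * C2 * R ^ 2) ≤ (b - a + 5 * R) * (1 / 8 + C1 * R) * W := by
  have hN' : (0 : ℝ) < N := by exact_mod_cast hN
  set σ : ℝ := 1 / (N : ℝ) with hσ
  have hσ0 : 0 < σ := by positivity
  have hσN : σ * N = 1 := by rw [hσ]; field_simp
  set I := (Finset.range (N + 1)).filter fun i : ℕ =>
    a - 2 * R ≤ 1 / (N : ℝ) * i ∧ 1 / (N : ℝ) * i ≤ b + 2 * R with hI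
  have hIc : (I.card : ℝ) ≤ (b - a + 4 * R) * N + 1 := by
    have := grid_card N hN (a - 2 * R) (b + 2 * R) (by linarith)
    rw [← hI] at this
    linarith
  set Q : ℝ := Real.pi / 2 * R ^ 2 - C2 * (R * (ρ + σ)) with hQ
  -- lower bound for each zero
  have h1 : ∀ z ∈ S, Q / σ ≤ ∑ i ∈ I, JJ R ρ (x z - σ * i) := by
    intro z hz
    obtain ⟨h2, h3, h4, h5⟩ := hS z hz
    refine (hK (x z) h2 h3).trans (le_of_eq ?_)
    symm
    refine Finset.sum_subset (Finset.filter_subset _ _) ?_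
    intro i hi hi'
    refine JJ_zero hR hρ ?_
    by_contra hcon
    rw [not_le, abs_lt] at hcon
    refine hi' (Finset.mem_filter.2 ⟨hi, ?_, ?_⟩)
    · rw [← hσ]
      linarith [hcon.2]
    · rw [← hσ]
      linarith [hcon.1]
  have h2 : (∑ z ∈ S, m z) * (Q / σ) ≤ I.card * ((R ^ 2 / 8 + C1 * ρ) * W) := by
    calc (∑ z ∈ S, m z) * (Q / σ) = ∑ z ∈ S, m z * (Q / σ) := by rw [Finset.sum_mul]
      _ ≤ ∑ z ∈ S, m z * ∑ i ∈ I, JJ R ρ (x z - σ * i) :=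
          Finset.sum_le_sum fun z hz => mul_le_mul_of_nonneg_left (h1 z hz) (hm z)
      _ = ∑ i ∈ I, ∑ z ∈ S, m z * JJ R ρ (x z - σ * i) := by
          rw [Finset.sum_comm]
          refine Finset.sum_congr rfl fun z _ => ?_
          rw [Finset.mul_sum]
      _ ≤ ∑ _i ∈ I, (R ^ 2 / 8 + C1 * ρ) * W := by
          refine Finset.sum_le_sum fun i hi => hP i ?_
          exact Finset.mem_range.1 (Finset.mem_filter.1 hi).1
      _ = I.card * ((R ^ 2 / 8 + C1 * ρ) * W) := by rw [Finset.sum_const, nsmul_eq_mul]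
  set M := ∑ z ∈ S, m z with hM
  have hM0 : 0 ≤ M := Finset.sum_nonneg fun z _ => hm z
  have h3 : M * Q ≤ (b - a + 4 * R + σ) * ((R ^ 2 / 8 + C1 * ρ) * W) := by
    have h4 : M * Q = M * (Q / σ) * σ := by field_simp
    rw [h4]
    calc M * (Q / σ) * σ ≤ I.card * ((R ^ 2 / 8 + C1 * ρ) * W) * σ :=
          mul_le_mul_of_nonneg_right h2 hσ0.le
      _ ≤ ((b - a + 4 * R) * N + 1) * ((R ^ 2 / 8 + C1 * ρ) * W) * σ := by
          refine mul_le_mul_of_nonneg_right (mul_le_mul_of_nonneg_right hIc ?_) hσ0.le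
          positivity
      _ = ((b - a + 4 * R) * (σ * N) + σ) * ((R ^ 2 / 8 + C1 * ρ) * W) := by ring
      _ = (b - a + 4 * R + σ) * ((R ^ 2 / 8 + C1 * ρ) * W) := by rw [hσN, mul_one]
  have h4 : R ^ 2 * (Real.pi / 2 - 2 * C2 * R ^ 2) ≤ Q := by
    rw [hQ]
    have h5 : R * (ρ + σ) ≤ R * (2 * R ^ 3) := mul_le_mul_of_nonneg_left (by linarith) hR.le
    have h6 := mul_le_mul_of_nonneg_left h5 hC2.le
    nlinarith
  have h5 : (b - a + 4 * R + σ) * ((R ^ 2 / 8 + C1 * ρ) * W) ≤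
      R ^ 2 * ((b - a + 5 * R) * (1 / 8 + C1 * R) * W) := by
    have h6 : σ ≤ R := by nlinarith [sq_nonneg R]
    have h7 : R ^ 2 / 8 + C1 * ρ ≤ R ^ 2 * (1 / 8 + C1 * R) := by nlinarith
    calc (b - a + 4 * R + σ) * ((R ^ 2 / 8 + C1 * ρ) * W) ≤
          (b - a + 5 * R) * ((R ^ 2 * (1 / 8 + C1 * R)) * W) := by
          refine mul_le_mul (by linarith) (mul_le_mul_of_nonneg_right h7 hW) (by positivity)
            (by linarith)
      _ = R ^ 2 * ((b - a + 5 * R) * (1 / 8 + C1 * R) * W) := by ring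
  have h6 : R ^ 2 * (M * (Real.pi / 2 - 2 * C2 * R ^ 2)) ≤
      R ^ 2 * ((b - a + 5 * R) * (1 / 8 + C1 * R) * W) := by
    calc R ^ 2 * (M * (Real.pi / 2 - 2 * C2 * R ^ 2)) =
          M * (R ^ 2 * (Real.pi / 2 - 2 * C2 * R ^ 2)) := by ring
      _ ≤ M * Q := mul_le_mul_of_nonneg_left h4 hM0
      _ ≤ _ := h3.trans h5
  exact le_of_mul_le_mul_left h6 (by positivity)

/-- The total count. -/
theorem count (m : ℂ → ℝ) (hm : ∀ z, 0 ≤ m z) (x : ℂ → ℝ) (S : Finset ℂ)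
    (R ρ C1 C2 W a b ε : ℝ) (N : ℕ) (hN : 0 < N) (hNR : 1 / (N : ℝ) ≤ R ^ 3)
    (hR : 0 < R) (hR1 : R ≤ 1 / 8) (hρ : 0 < ρ) (hρR : ρ ≤ R ^ 3) (hC1 : 0 < C1) (hC2 : 0 < C2)
    (hε : 0 < ε) (hRε : R * (32 * (6 * C1 + 4 + C2 * (1 + ε))) ≤ ε)
    (ha : 0 ≤ a) (hab : a ≤ b) (hb : b ≤ 1) (hW : 0 ≤ W)
    (hS : ∀ z ∈ S, a - R ≤ x z ∧ x z ≤ b + R)
    (hP : ∀ i < N + 1, ∀ S' ⊆ S,
      ∑ z ∈ S', m z * JJ R ρ (x z - 1 / (N : ℝ) * i) ≤ (R ^ 2 / 8 + C1 * ρ) * W)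
    (hA : ∀ S' ⊆ S, ∑ z ∈ S', m z * JJ (8 * R) ρ (x z - 0) ≤ ((8 * R) ^ 2 / 8 + C1 * ρ) * W)
    (hB : ∀ S' ⊆ S, ∑ z ∈ S', m z * JJ (8 * R) ρ (x z - 1) ≤ ((8 * R) ^ 2 / 8 + C1 * ρ) * W)
    (hK : ∀ y : ℝ, R ≤ y → y + R ≤ 1 →
      (Real.pi / 2 * R ^ 2 - C2 * (R * (ρ + 1 / (N : ℝ)))) / (1 / (N : ℝ)) ≤
        ∑ i ∈ Finset.range (N + 1), JJ R ρ (y - 1 / (N : ℝ) * i)) :
    ∑ z ∈ S, m z ≤ ((b - a) / 2 + ε) * (W / (2 * Real.pi)) := by
  classical
  set Sa := S.filter fun z => |x z - 0| ≤ R with hSa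
  set Sb := S.filter fun z => |x z - 1| ≤ R with hSb
  set Sc := S.filter fun z => R ≤ x z ∧ x z + R ≤ 1 with hSc
  have h1 : ∑ z ∈ Sa, m z ≤ (4 + C1) * R * W :=
    count_end m hm x Sa R ρ C1 W 0 hR hR1 hρ hρR hC1 hW
      (fun z hz => (Finset.mem_filter.1 hz).2) (hA Sa (Finset.filter_subset _ _))
  have h2 : ∑ z ∈ Sb, m z ≤ (4 + C1) * R * W :=
    count_end m hm x Sb R ρ C1 W 1 hR hR1 hρ hρR hC1 hW
      (fun z hz => (Finset.mem_filter.1 hz).2) (hB Sb (Finset.filter_subset _ _))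
  have h3 := count_mid m hm x Sc R ρ C1 C2 W a b N hN hNR hR hR1 hρ hρR hC1 hC2 hab hW
    (fun z hz => by
      obtain ⟨h4, h5, h6⟩ := Finset.mem_filter.1 hz
      exact ⟨h5, h6, (hS z h4).1, (hS z h4).2⟩)
    (fun i hi => hP i hi Sc (Finset.filter_subset _ _)) hK
  have h4 : ∑ z ∈ S, m z ≤ ∑ z ∈ Sa, m z + ∑ z ∈ Sb, m z + ∑ z ∈ Sc, m z := by
    rw [hSa, hSb, hSc, Finset.sum_filter, Finset.sum_filter, Finset.sum_filter,
      ← Finset.sum_add_distrib, ← Finset.sum_add_distrib]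
    refine Finset.sum_le_sum fun z hz => ?_
    obtain ⟨h5, h6⟩ := hS z hz
    have hmz := hm z
    by_cases c1 : |x z - 0| ≤ R
    · rw [if_pos c1]
      have e1 : 0 ≤ (if |x z - 1| ≤ R then m z else 0) := by split_ifs <;> linarith
      have e2 : 0 ≤ (if R ≤ x z ∧ x z + R ≤ 1 then m z else 0) := by split_ifs <;> linarith
      linarith
    · by_cases c2 : |x z - 1| ≤ R
      · rw [if_neg c1, if_pos c2]
        have e2 : 0 ≤ (if R ≤ x z ∧ x z + R ≤ 1 then m z else 0) := by split_ifs <;> linarith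
        linarith
      · have c3 : R ≤ x z ∧ x z + R ≤ 1 := by
          rw [not_le, lt_abs] at c1 c2
          constructor
          · rcases c1 with c | c <;> linarith
          · rcases c2 with c | c <;> linarith
        rw [if_neg c1, if_neg c2, if_pos c3]
        linarith
  -- numbers
  have hpi := Real.pi_pos
  have hpi3 := Real.pi_gt_three
  have hpi4 := Real.pi_le_four
  set M := ∑ z ∈ Sc, m z with hM
  have hM0 : 0 ≤ M := Finset.sum_nonneg fun z _ => hm z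
  have hC2R : 2 * C2 * R ^ 2 ≤ 1 / 4 := by
    have e1 : R * (32 * (C2 * (1 + ε))) ≤ ε := by
      refine le_trans (mul_le_mul_of_nonneg_left ?_ hR.le) hRε
      nlinarith
    have e2 : 32 * (C2 * R) * (1 + ε) ≤ 1 + ε := by nlinarith
    have e3 : 32 * (C2 * R) ≤ 1 := le_of_mul_le_mul_right (by linarith) (by linarith : 0 < 1 + ε)
    nlinarith
  have hQ : 0 < Real.pi / 2 - 2 * C2 * R ^ 2 := by linarith
  have h5 : M ≤ ((b - a) / 2 + ε / 2) * (W / (2 * Real.pi)) := by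
    have h6 : (b - a + 5 * R) * (1 / 8 + C1 * R) * W ≤
        ((b - a) / 2 + ε / 2) * (W / (2 * Real.pi)) * (Real.pi / 2 - 2 * C2 * R ^ 2) := by
      have h7 : (b - a + 5 * R) * (1 / 8 + C1 * R) ≤
          ((b - a) / 2 + ε / 2) * (1 / (2 * Real.pi)) * (Real.pi / 2 - 2 * C2 * R ^ 2) := by
        have e1 : ((b - a) / 2 + ε / 2) * (1 / (2 * Real.pi)) * (Real.pi / 2 - 2 * C2 * R ^ 2) =
            (b - a + ε) / 8 - (b - a + ε) * (C2 * R ^ 2) / (2 * Real.pi) := by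
          field_simp
          ring
        rw [e1]
        have e2 : (b - a + ε) * (C2 * R ^ 2) / (2 * Real.pi) ≤ (1 + ε) * (C2 * R) := by
          rw [div_le_iff₀ (by positivity)]
          have e3 : R ^ 2 ≤ R := by nlinarith
          have e4 : (b - a + ε) * (C2 * R ^ 2) ≤ (1 + ε) * (C2 * R) :=
            mul_le_mul (by linarith) (mul_le_mul_of_nonneg_left e3 hC2.le) (by positivity)
              (by linarith)
          have e5 : 0 ≤ (1 + ε) * (C2 * R) := by positivity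
          nlinarith
        have e3 : (b - a + 5 * R) * (1 / 8 + C1 * R) ≤
            (b - a) / 8 + R * (5 / 8 + C1 + 5 * C1 * R) := by
          have e4 : (b - a) * (C1 * R) ≤ 1 * (C1 * R) :=
            mul_le_mul_of_nonneg_right (by linarith) (by positivity)
          nlinarith
        have e4 : R * (5 / 8 + C1 + 5 * C1 * R) ≤ R * (5 / 8 + 6 * C1) := by
          refine mul_le_mul_of_nonneg_left ?_ hR.le
          nlinarith
        nlinarith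
      calc (b - a + 5 * R) * (1 / 8 + C1 * R) * W ≤
            ((b - a) / 2 + ε / 2) * (1 / (2 * Real.pi)) * (Real.pi / 2 - 2 * C2 * R ^ 2) * W :=
            mul_le_mul_of_nonneg_right h7 hW
        _ = _ := by ring
    exact le_of_mul_le_mul_right (h3.trans h6) hQ
  have h6 : 2 * ((4 + C1) * R * W) ≤ ε / 2 * (W / (2 * Real.pi)) := by
    have e1 : 2 * ((4 + C1) * R) ≤ ε / 2 * (1 / (2 * Real.pi)) := by
      rw [mul_one_div, le_div_iff₀ (by positivity)]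
      have e2 : R * (32 * (4 + C1)) ≤ ε := by
        refine le_trans (mul_le_mul_of_nonneg_left ?_ hR.le) hRε
        have : 0 < C2 * (1 + ε) := by positivity
        nlinarith
      have e3 : 0 < (4 + C1) * R := by positivity
      nlinarith
    calc 2 * ((4 + C1) * R * W) = 2 * ((4 + C1) * R) * W := by ring
      _ ≤ ε / 2 * (1 / (2 * Real.pi)) * W := mul_le_mul_of_nonneg_right e1 hW
      _ = _ := by ring
  calc ∑ z ∈ S, m z ≤ (4 + C1) * R * W + (4 + C1) * R * W +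
        ((b - a) / 2 + ε / 2) * (W / (2 * Real.pi)) := by linarith
    _ ≤ ((b - a) / 2 + ε) * (W / (2 * Real.pi)) := by linarith

/-- Uniform choice of finitely many constants. -/
theorem unif (Q : ℕ → ℝ → ℝ → Prop) (N : ℕ)
    (h : ∀ i < N, ∃ A0 δ T0 : ℝ, 1 ≤ A0 ∧ 0 < δ ∧ 10 ≤ T0 ∧ ∀ T μ : ℝ, T0 ≤ T → 0 < μ →
      A0 ≤ μ * Real.log T ^ 2 → μ * Real.log T ≤ δ → Q i T μ) :
    ∃ A0 δ T0 : ℝ, 1 ≤ A0 ∧ 0 < δ ∧ 10 ≤ T0 ∧ ∀ T μ : ℝ, T0 ≤ T → 0 < μ →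
      A0 ≤ μ * Real.log T ^ 2 → μ * Real.log T ≤ δ → ∀ i < N, Q i T μ := by
  induction N with
  | zero =>
    exact ⟨1, 1, 10, le_rfl, one_pos, le_rfl, fun T μ _ _ _ _ i hi => absurd hi (Nat.not_lt_zero i)⟩
  | succ N ih =>
    obtain ⟨A, d, T', h1, h2, h3, h4⟩ := ih fun i hi => h i (by omega)
    obtain ⟨A2, d2, T2, g1, g2, g3, g4⟩ := h N (by omega)
    refine ⟨max A A2, min d d2, max T' T2, h1.trans (le_max_left _ _), lt_min h2 g2,
      h3.trans (le_max_left _ _), fun T μ hT hμ hA hd i hi => ?_⟩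
    rcases Nat.lt_succ_iff_lt_or_eq.1 hi with hi | hi
    · exact h4 T μ ((le_max_left _ _).trans hT) hμ ((le_max_left _ _).trans hA)
        (hd.trans (min_le_left _ _)) i hi
    · rw [hi]
      exact g4 T μ ((le_max_right _ _).trans hT) hμ ((le_max_right _ _).trans hA)
        (hd.trans (min_le_right _ _))

end Pool.Agent.H357.HE
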