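import Pool.Agent.H466.HE.SB
import Pool.Agent.H357.HE.UPPc

/-!
# UPP: sharp upper bound for the number of the zeros in vertical strips
-/

set_option autoImplicit false

namespace Pool.Agent.H357.HE

open Complex MeasureTheory Set Filter Topology
open scoped ComplexConjugate
open Pool.Agent.H466.HF Pool.Agent.H466.LD Pool.Agent.H466.HP Pool.Agent.H466.HN Pool.Agent.H466.HD
open Pool.Agent.H466.HE

theorem kk_eq (R ρ s : ℝ) : kk R ρ s = kr R ρ s := rfl

theorem upp (h1 : S_PHI) (h2 : S_KS) : S_UPP := by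
  intro ε hε
  obtain ⟨C1, hC1, hPHI⟩ := h1
  obtain ⟨C2, hC2, hKS⟩ := h2
  set R : ℝ := min (1 / 8) (ε / (32 * (6 * C1 + 4 + C2 * (1 + ε)))) with hRdef
  have hR0 : 0 < R := lt_min (by norm_num) (by positivity)
  have hR1 : R ≤ 1 / 8 := min_le_left _ _
  have hRε : R * (32 * (6 * C1 + 4 + C2 * (1 + ε))) ≤ ε := by
    have h3 : R ≤ ε / (32 * (6 * C1 + 4 + C2 * (1 + ε))) := min_le_right _ _
    rwa [le_div_iff₀ (by positivity)] at h3
  set ρ : ℝ := R ^ 3 with hρdef
  have hρ0 : 0 < ρ := by positivity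
  have hρR : ρ ≤ R := by
    rw [hρdef]
    calc R ^ 3 ≤ R ^ 1 := pow_le_pow_of_le_one hR0.le (by linarith) (by norm_num)
      _ = R := pow_one R
  obtain ⟨N, hN⟩ := exists_nat_ge (1 / R ^ 3)
  have hNpos' : (0 : ℝ) < N := lt_of_lt_of_le (by positivity) hN
  have hNpos : 0 < N := by exact_mod_cast hNpos'
  have hNR : 1 / (N : ℝ) ≤ R ^ 3 := by
    rw [div_le_iff₀ hNpos']
    rw [div_le_iff₀ (by positivity)] at hN
    linarith
  set X : ℕ → ℝ := fun i => if i < N + 1 then 1 / (N : ℝ) * i else if i = N + 1 then 0 else 1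
    with hX
  set RR : ℕ → ℝ := fun i => if i < N + 1 then R else 8 * R with hRR
  have hX0 : ∀ i, 0 ≤ X i := by
    intro i
    simp only [hX]
    split_ifs
    · positivity
    · exact le_rfl
    · exact zero_le_one
  have hX1 : ∀ i, X i ≤ 1 := by
    intro i
    simp only [hX]
    split_ifs with c1 c2
    · have : (i : ℝ) ≤ N := by exact_mod_cast Nat.lt_succ_iff.1 c1
      rw [one_div, inv_mul_le_iff₀ hNpos']
      linarith
    · exact zero_le_one
    · exact le_rfl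
  have hRR1 : ∀ i, ρ ≤ RR i ∧ RR i ≤ 1 := by
    intro i
    simp only [hRR]
    split_ifs
    · exact ⟨hρR, by linarith⟩
    · exact ⟨by linarith, by linarith⟩
  obtain ⟨A0, δ, T0, hA0, hδ, hT0, hall⟩ := unif (fun i T μ =>
    ∀ S : Finset ℂ, (∀ z ∈ S, LL gk (-μ) z = 0 ∧ T ≤ z.im ∧ z.im ≤ 2 * T) →
      ∑ z ∈ S, (analyticOrderNatAt (LL gk (-μ)) z : ℝ) *
        (∫ t : ℝ, kk (RR i) ρ (‖z - ((X i * (μ * Real.log T) : ℝ) + (t : ℂ) * I)‖ /
          (μ * Real.log T))) ≤
        ((RR i) ^ 2 / 8 + C1 * ρ) * (μ * Real.log T ^ 2) * T) (N + 3)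
    (fun i _ => hPHI ρ (RR i) (X i) hρ0 (by linarith) (hRR1 i).1 (hRR1 i).2 (hX0 i) (hX1 i))
  refine ⟨R, A0, δ, T0, hR0, hA0, hδ, hT0, fun T μ hT hμ hA hd a b ha hab hb S hS => ?_⟩
  have hT10 : 10 ≤ T := hT0.trans hT
  have hL : 0 < Real.log T := Real.log_pos (by linarith)
  set L : ℝ := Real.log T with hLdef
  set D : ℝ := μ * L with hDdef
  have hD : 0 < D := by positivity
  set m : ℂ → ℝ := fun z => (analyticOrderNatAt (LL gk (-μ)) z : ℝ) with hm
  have hm0 : ∀ z, 0 ≤ m z := fun z => Nat.cast_nonneg _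
  -- the averaged bound
  have key : ∀ i < N + 3, ∀ S' ⊆ S, ∑ z ∈ S', m z * JJ (RR i) ρ (z.re / D - X i) ≤
      ((RR i) ^ 2 / 8 + C1 * ρ) * (L * T) := by
    intro i hi S' hS'
    have h3 := hall T μ hT hμ hA hd i hi S' fun z hz =>
      ⟨(hS z (hS' hz)).1, (hS z (hS' hz)).2.1, (hS z (hS' hz)).2.2.1⟩
    have h4 : ∀ z : ℂ, (∫ t : ℝ, kk (RR i) ρ (‖z - ((X i * D : ℝ) + (t : ℂ) * I)‖ / D)) =
        D * JJ (RR i) ρ (z.re / D - X i) := fun z => JJ_scale (RR i) ρ (X i) D hD z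
    have h5 : ∑ z ∈ S', (analyticOrderNatAt (LL gk (-μ)) z : ℝ) *
        (∫ t : ℝ, kk (RR i) ρ (‖z - ((X i * D : ℝ) + (t : ℂ) * I)‖ / D)) =
        D * ∑ z ∈ S', m z * JJ (RR i) ρ (z.re / D - X i) := by
      rw [Finset.mul_sum]
      refine Finset.sum_congr rfl fun z _ => ?_
      rw [h4 z]
      ring
    have h6 : ((RR i) ^ 2 / 8 + C1 * ρ) * (μ * L ^ 2) * T =
        D * (((RR i) ^ 2 / 8 + C1 * ρ) * (L * T)) := by
      rw [hDdef]
      ring
    rw [h5, h6] at h3
    exact le_of_mul_le_mul_left h3 hD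
  have hfin := count m hm0 (fun z => z.re / D) S R ρ C1 C2 (L * T) a b ε N hNpos hNR hR0 hR1 hρ0
    le_rfl hC1 hC2 hε hRε ha hab hb (by positivity)
    (fun z hz => by
      obtain ⟨-, -, -, h3, h4⟩ := hS z hz
      constructor
      · show a - R ≤ z.re / D
        rw [le_div_iff₀ hD]
        exact h3
      · show z.re / D ≤ b + R
        rw [div_le_iff₀ hD]
        exact h4)
    (fun i hi S' hS' => by
      have h3 := key i (by omega) S' hS'
      simp only [hX, hRR, if_pos hi] at h3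
      exact h3)
    (fun S' hS' => by
      have h3 := key (N + 1) (by omega) S' hS'
      simp only [hX, hRR, lt_irrefl, if_false, if_true] at h3
      exact h3)
    (fun S' hS' => by
      have h3 := key (N + 2) (by omega) S' hS'
      have e1 : ¬ (N + 2 < N + 1) := by omega
      have e2 : ¬ (N + 2 = N + 1) := by omega
      simp only [hX, hRR, if_neg e1, if_neg e2] at h3
      exact h3)
    (fun y hy1 hy2 => by
      refine hKS ρ R (1 / (N : ℝ)) y N hρ0 hρR (by linarith) (by positivity)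
        (hNR.trans hρR) hy1 ?_
      rw [one_div, inv_mul_cancel₀ hNpos'.ne']
      exact hy2)
  refine hfin.trans (le_of_eq ?_)
  ring

end Pool.Agent.H357.HE
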